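import Pool.Agent.Q170.HC.General

/-!
The concrete weights, the triangular change of basis, and the dense orbit.
-/

namespace Q170.HC
open Filter Topology

variable {𝕜 : Type} [RCLike 𝕜]

section dense

/-- a map `ℕ → 𝕜` with dense range and `0 ↦ 0` -/
noncomputable def dmap (𝕜 : Type) [RCLike 𝕜] : ℕ → 𝕜
  | 0 => 0
  | k + 1 => TopologicalSpace.denseSeq 𝕜 k

lemma dmap_zero (𝕜 : Type) [RCLike 𝕜] : dmap 𝕜 0 = 0 := rfl

lemma exists_dense_seq (𝕜 : Type) [RCLike 𝕜] : ∃ d : ℕ → (ℕ →₀ 𝕜),
    ∀ (y : ℕ →₀ 𝕜) (w : ℕ → ℝ) (hw : ∀ n, 0 ≤ w n) (ε : ℝ), 0 < ε →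
      ∃ a, pw 𝕜 w hw (d a - y) < ε := by
  classical
  obtain ⟨s, hs⟩ := exists_surjective_nat (ℕ →₀ ℕ)
  refine ⟨fun a => Finsupp.mapRange (dmap 𝕜) (dmap_zero 𝕜) (s a), ?_⟩
  intro y w hw ε hε
  set M := y.support.card with hM
  have h1 : ∀ i, ∃ t : ℕ, w i * ‖TopologicalSpace.denseSeq 𝕜 t - y i‖ ≤ ε / (M + 1) := by
    intro i
    have hd := TopologicalSpace.denseRange_denseSeq 𝕜
    have hpos : 0 < ε / (M + 1) / (w i + 1) := by
      have := hw i
      positivity
    obtain ⟨t, ht⟩ := hd.exists_dist_lt (y i) hpos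
    refine ⟨t, ?_⟩
    rw [dist_comm, dist_eq_norm] at ht
    have hwi := hw i
    have h2 : (w i + 1) * ‖TopologicalSpace.denseSeq 𝕜 t - y i‖ ≤ ε / (M + 1) := by
      rw [lt_div_iff₀ (by linarith)] at ht
      linarith
    have h3 := norm_nonneg (TopologicalSpace.denseSeq 𝕜 t - y i)
    nlinarith
  choose t ht using h1
  obtain ⟨a, ha⟩ := hs (Finsupp.indicator y.support (fun i _ => t i + 1))
  refine ⟨a, ?_⟩
  simp only
  rw [ha]
  have hval : ∀ i, (Finsupp.mapRange (dmap 𝕜) (dmap_zero 𝕜)
      (Finsupp.indicator y.support (fun i _ => t i + 1)) : ℕ →₀ 𝕜) i =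
      if i ∈ y.support then TopologicalSpace.denseSeq 𝕜 (t i) else 0 := by
    intro i
    rw [Finsupp.mapRange_apply, Finsupp.indicator_apply]
    split_ifs with h
    · rfl
    · rfl
  rw [pw_eq_sum w hw _ (F := y.support)]
  · refine lt_of_le_of_lt (Finset.sum_le_sum (g := fun _ => ε / (M + 1)) fun i hi => ?_) ?_
    · rw [Finsupp.sub_apply, hval, if_pos hi]
      exact ht i
    · rw [Finset.sum_const, nsmul_eq_mul, ← hM, mul_div_assoc', div_lt_iff₀ (by positivity)]
      nlinarith
  · intro i hi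
    by_contra h
    rw [Finsupp.mem_support_iff, Finsupp.sub_apply, hval, if_neg h,
      Finsupp.notMem_support_iff.mp h, sub_zero] at hi
    exact hi rfl

end dense

section triangular

variable (q : ℕ → ℕ →₀ 𝕜)

/-- expansion of the `n`-th unit vector in the new basis -/
noncomputable def g (q : ℕ → ℕ →₀ 𝕜) : ℕ → ℕ →₀ 𝕜
  | n => Finsupp.single n 1 + ∑ k : Fin n, q n k • g q k

lemma g_eq (n : ℕ) : g q n = Finsupp.single n 1 + ∑ k ∈ Finset.range n, q n k • g q k := by
  rw [g, Finset.sum_range]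

/-- new coordinates to old coordinates -/
noncomputable def L (q : ℕ → ℕ →₀ 𝕜) : (ℕ →₀ 𝕜) →ₗ[𝕜] (ℕ →₀ 𝕜) :=
  Finsupp.linearCombination 𝕜 fun n => Finsupp.single n 1 - q n

/-- old coordinates to new coordinates -/
noncomputable def Linv (q : ℕ → ℕ →₀ 𝕜) : (ℕ →₀ 𝕜) →ₗ[𝕜] (ℕ →₀ 𝕜) :=
  Finsupp.linearCombination 𝕜 (g q)

lemma L_single (n : ℕ) : L q (Finsupp.single n 1) = Finsupp.single n 1 - q n := by
  rw [L, Finsupp.linearCombination_single, one_smul]

lemma Linv_single (n : ℕ) : Linv q (Finsupp.single n 1) = g q n := by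
  rw [Linv, Finsupp.linearCombination_single, one_smul]

variable (hq : ∀ n k, n ≤ k → q n k = 0)
include hq

lemma lin_q (F : ℕ → ℕ →₀ 𝕜) (n : ℕ) :
    Finsupp.linearCombination 𝕜 F (q n) = ∑ k ∈ Finset.range n, q n k • F k := by
  rw [Finsupp.linearCombination_apply]
  refine Finsupp.sum_of_support_subset _ ?_ _ fun _ _ => zero_smul _ _
  intro k hk
  rw [Finset.mem_range]
  by_contra h
  exact (Finsupp.mem_support_iff.mp hk) (hq n k (not_lt.mp h))

lemma Linv_L (x : ℕ →₀ 𝕜) : Linv q (L q x) = x := by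
  have h : (Linv q) ∘ₗ (L q) = LinearMap.id := by
    apply Finsupp.lhom_ext'
    intro n
    apply LinearMap.ext_ring
    simp only [LinearMap.comp_apply, Finsupp.lsingle_apply, LinearMap.id_apply]
    rw [L_single, map_sub, Linv_single, Linv, lin_q q hq, g_eq]
    abel
  exact LinearMap.congr_fun h x

lemma L_g (n : ℕ) : L q (g q n) = Finsupp.single n 1 := by
  induction n using Nat.strong_induction_on with
  | _ n ih =>
    rw [g_eq, map_add, map_sum, L_single]
    have h1 : ∑ k ∈ Finset.range n, L q (q n k • g q k) =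
        ∑ k ∈ Finset.range n, q n k • Finsupp.single k (1 : 𝕜) := by
      refine Finset.sum_congr rfl fun k hk => ?_
      rw [map_smul, ih k (Finset.mem_range.mp hk)]
    rw [h1, ← lin_q q hq (fun k => Finsupp.single k (1 : 𝕜))]
    have h2 : Finsupp.linearCombination 𝕜 (fun k => Finsupp.single k (1 : 𝕜)) (q n) = q n := by
      rw [Finsupp.linearCombination_apply]
      simp
    rw [h2]
    abel

lemma L_Linv (x : ℕ →₀ 𝕜) : L q (Linv q x) = x := by
  have h : (L q) ∘ₗ (Linv q) = LinearMap.id := by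
    apply Finsupp.lhom_ext'
    intro n
    apply LinearMap.ext_ring
    simp only [LinearMap.comp_apply, Finsupp.lsingle_apply, LinearMap.id_apply]
    rw [Linv_single, L_g q hq]
  exact LinearMap.congr_fun h x

end triangular

/-- the forward shift -/
noncomputable def σ (𝕜 : Type) [RCLike 𝕜] : (ℕ →₀ 𝕜) →ₗ[𝕜] (ℕ →₀ 𝕜) :=
  Finsupp.lmapDomain 𝕜 𝕜 Nat.succ

lemma σ_single (n : ℕ) : σ 𝕜 (Finsupp.single n 1) = Finsupp.single (n + 1) 1 := by
  rw [σ, Finsupp.lmapDomain_apply, Finsupp.mapDomain_single]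

lemma σ_succ (x : ℕ →₀ 𝕜) (n : ℕ) : σ 𝕜 x (n + 1) = x n := by
  rw [σ, Finsupp.lmapDomain_apply]
  exact Finsupp.mapDomain_apply Nat.succ_injective x n

lemma σ_pow (N : ℕ) : ((σ 𝕜) ^ N) (Finsupp.single 0 1) = Finsupp.single N 1 := by
  induction N with
  | zero => simp
  | succ N ih => rw [pow_succ', Module.End.mul_apply, ih, σ_single]

section op

variable (q : ℕ → ℕ →₀ 𝕜) (hq : ∀ n k, n ≤ k → q n k = 0)

/-- the operator -/
noncomputable def T (q : ℕ → ℕ →₀ 𝕜) : (ℕ →₀ 𝕜) →ₗ[𝕜] (ℕ →₀ 𝕜) :=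
  (Linv q) ∘ₗ (σ 𝕜) ∘ₗ (L q)

include hq

lemma T_single (n : ℕ) : T q (Finsupp.single n 1) =
    Finsupp.single (n + 1) 1 + Linv q (q (n + 1) - σ 𝕜 (q n)) := by
  have h1 : Finsupp.single (n + 1) (1 : 𝕜) = Linv q (Finsupp.single (n + 1) 1 - q (n + 1)) := by
    rw [← L_single, Linv_L q hq]
  rw [T, LinearMap.comp_apply, LinearMap.comp_apply, L_single, map_sub, σ_single]
  conv_rhs => rw [h1]
  rw [← map_add]
  congr 1
  abel

lemma T_pow (N : ℕ) (x : ℕ →₀ 𝕜) : ((T q) ^ N) x = Linv q (((σ 𝕜) ^ N) (L q x)) := by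
  induction N with
  | zero => simp [Linv_L q hq]
  | succ N ih =>
    rw [pow_succ', Module.End.mul_apply, ih, pow_succ', Module.End.mul_apply, T,
      LinearMap.comp_apply, LinearMap.comp_apply, L_Linv q hq]

lemma T_pow_single (N : ℕ) : ((T q) ^ N) (Finsupp.single 0 1) =
    Finsupp.single N 1 + Linv q (q N) := by
  have h0 : q 0 = 0 := Finsupp.ext fun k => hq 0 k (Nat.zero_le k)
  have h1 : Finsupp.single N (1 : 𝕜) = Linv q (Finsupp.single N 1 - q N) := by
    rw [← L_single, Linv_L q hq]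
  rw [T_pow q hq, L_single, h0, sub_zero, σ_pow]
  conv_rhs => rw [h1]
  rw [← map_add]
  congr 1
  abel

end op

section weights

/-- decay sequence -/
noncomputable def c (j : ℕ) : ℝ := 1 / ((Nat.sqrt j : ℝ) + 1)

lemma c_pos (j : ℕ) : 0 < c j := by unfold c; positivity

/-- small sets of indices -/
def Small (J : Set ℕ) : Prop := Summable (J.indicator c)

lemma Small.mono {J K : Set ℕ} (h : Small K) (hJK : J ⊆ K) : Small J := by
  refine Summable.of_nonneg_of_le (fun j => ?_) (fun j => ?_) h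
  · exact Set.indicator_nonneg (fun j _ => (c_pos j).le) j
  · exact Set.indicator_le_indicator_of_subset hJK (fun j => (c_pos j).le) j

lemma Small.union {J K : Set ℕ} (hJ : Small J) (hK : Small K) : Small (J ∪ K) := by
  refine Summable.of_nonneg_of_le (fun j => ?_) (fun j => ?_) (hJ.add hK)
  · exact Set.indicator_nonneg (fun j _ => (c_pos j).le) j
  · classical
    have := (c_pos j).le
    simp only [Set.indicator_apply, Set.mem_union]
    split_ifs <;> first | linarith | tauto

lemma small_of_finite {J : Set ℕ} (hJ : J.Finite) : Small J :=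
  summable_of_hasFiniteSupport (hJ.subset (Set.support_indicator_subset))

variable (m : ℕ → ℕ)

/-- the set of weights -/
def Wt (m : ℕ → ℕ) : Set (ℕ → ℝ) :=
  {w | (∀ n, 0 ≤ w n) ∧ ∀ i, Small {j | w (m j + i) ≠ 0}}

variable (hm : StrictMono m) (hgap : ∀ i j, i < j → m j + i + 1 < m (j + 1))
include hm hgap

lemma Wt_weights : Weights (Wt m) where
  nonneg := fun w hw => hw.1
  add := by
    intro w hw w' hw'
    refine ⟨fun n => add_nonneg (hw.1 n) (hw'.1 n), fun i => ?_⟩
    refine ((hw.2 i).union (hw'.2 i)).mono ?_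
    intro j hj
    by_contra h
    simp only [Set.mem_union, Set.mem_ofPred_eq, not_or, not_not] at h
    exact hj (by simp [h.1, h.2])
  single := by
    intro n
    refine ⟨fun k => ?_, fun i => small_of_finite ?_⟩
    · by_cases h : k = n
      · subst h; simp
      · simp [Pi.single_eq_of_ne h]
    · refine Set.Subsingleton.finite ?_
      intro j hj k hk
      have h1 : m j + i = n := by
        by_contra h
        exact hj (by simp [Pi.single_eq_of_ne h])
      have h2 : m k + i = n := by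
        by_contra h
        exact hk (by simp [Pi.single_eq_of_ne h])
      exact hm.injective (by omega)
  tall := by
    intro S f hS hf
    -- blocks
    have hinf : ∀ n : ℕ, ∃ᶠ k in atTop, k ∈ S ∧ ∀ j, k < m (j + 1) → c j ≤ (1 / 2 : ℝ) ^ n := by
      intro n
      have h1 : ∃ᶠ k in atTop, k ∈ S := Nat.frequently_atTop_iff_infinite.mpr hS
      refine (h1.and_eventually (Filter.eventually_ge_atTop (m (2 ^ n * 2 ^ n + 1)))).mono ?_
      rintro k ⟨hk, hk2⟩
      refine ⟨hk, fun j hj => ?_⟩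
      have h3 : 2 ^ n * 2 ^ n ≤ j := by
        have := hm.lt_iff_lt.mp (lt_of_le_of_lt hk2 hj)
        omega
      have h4 : 2 ^ n ≤ Nat.sqrt j := Nat.le_sqrt.mpr h3
      have h5 : (2 : ℝ) ^ n ≤ (Nat.sqrt j : ℝ) + 1 := by
        have : ((2 ^ n : ℕ) : ℝ) ≤ (Nat.sqrt j : ℝ) := by exact_mod_cast h4
        push_cast at this
        linarith
      unfold c
      rw [one_div_pow]
      exact one_div_le_one_div_of_le (by positivity) h5
    obtain ⟨φ, hφ, hφS⟩ := Filter.extraction_forall_of_frequently hinf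
    classical
    refine ⟨fun k => if k ∈ Set.range φ then 1 / f k else 0, ⟨fun k => ?_, fun i => ?_⟩, ?_⟩
    · dsimp only
      split_ifs with h
      · obtain ⟨n, rfl⟩ := h
        exact (one_div_pos.mpr (hf _ (hφS n).1)).le
      · exact le_rfl
    · -- smallness
      refine ((small_of_finite (Set.finite_le_nat i)).union (K := {j | i < j ∧
        m j + i ∈ Set.range φ}) ?_).mono ?_
      · unfold Small
        refine summable_of_sum_le (c := 2) ?_ ?_
        · intro j
          exact Set.indicator_nonneg (fun j _ => (c_pos j).le) j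
        · intro F
          set J : Set ℕ := {j | i < j ∧ m j + i ∈ Set.range φ} with hJ
          have hch : ∀ j, ∃ n, j ∈ J → φ n = m j + i := by
            intro j
            by_cases h : j ∈ J
            · obtain ⟨n, hn⟩ := h.2
              exact ⟨n, fun _ => hn⟩
            · exact ⟨0, fun h' => absurd h' h⟩
          choose ν hν using hch
          have hinj : Set.InjOn ν (F.filter (fun j => j ∈ J)) := by
            intro j hj k hk hjk
            have hj2 := (Finset.mem_filter.mp (Finset.mem_coe.mp hj)).2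
            have hk2 := (Finset.mem_filter.mp (Finset.mem_coe.mp hk)).2
            have h1 := hν j hj2
            have h2 := hν k hk2
            rw [hjk, h2] at h1
            exact hm.injective (by omega)
          have h1 : ∑ j ∈ F, J.indicator c j = ∑ j ∈ F.filter (fun j => j ∈ J), c j := by
            rw [Finset.sum_filter]
            exact Finset.sum_congr rfl fun j _ => Set.indicator_apply _ _ _
          rw [h1]
          calc ∑ j ∈ F.filter (fun j => j ∈ J), c j
              ≤ ∑ j ∈ F.filter (fun j => j ∈ J), (1 / 2 : ℝ) ^ (ν j) := by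
                refine Finset.sum_le_sum fun j hj => ?_
                have hj2 := (Finset.mem_filter.mp hj).2
                refine (hφS (ν j)).2 j ?_
                rw [hν j hj2]
                have := hgap i j hj2.1
                omega
            _ = ∑ n ∈ (F.filter (fun j => j ∈ J)).image ν, (1 / 2 : ℝ) ^ n := by
                rw [Finset.sum_image hinj]
            _ ≤ ∑' n : ℕ, (1 / 2 : ℝ) ^ n :=
                summable_geometric_two.sum_le_tsum _ fun n _ => by positivity
            _ = 2 := tsum_geometric_two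
      · intro j hj
        by_cases h : j ≤ i
        · exact Or.inl h
        · refine Or.inr ⟨not_le.mp h, ?_⟩
          by_contra hr
          exact hj (by simp only; rw [if_neg hr])
    · refine Set.Infinite.mono (s := Set.range φ) ?_ (Set.infinite_range_of_injective hφ.injective)
      rintro _ ⟨n, rfl⟩
      refine ⟨(hφS n).1, ?_⟩
      dsimp only
      rw [if_pos ⟨n, rfl⟩, one_div_mul_cancel (hf _ (hφS n).1).ne']

omit hm hgap in
/-- every class contains an index of weight zero -/
lemma exists_zero (w : ℕ → ℝ) (hw : w ∈ Wt m) (a : ℕ) : ∃ b, w (m (Nat.pair a b)) = 0 := by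
  by_contra hcon
  push Not at hcon
  have h1 := hw.2 0
  unfold Small at h1
  have h2 : Summable fun b : ℕ => ({j | w (m j + 0) ≠ 0} : Set ℕ).indicator c (Nat.pair a b) := by
    refine h1.comp_injective (i := fun b : ℕ => Nat.pair a b) ?_
    intro b b' h
    exact (Nat.pair_eq_pair.mp h).2
  have h3 : Summable fun b : ℕ => 1 / (((b + (a + 1) : ℕ) : ℝ)) := by
    refine Summable.of_nonneg_of_le (fun b => by positivity) (fun b => ?_) h2
    rw [Set.indicator_of_mem (show Nat.pair a b ∈ {j | w (m j + 0) ≠ 0} from hcon b)]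
    unfold c
    have h4 : Nat.sqrt (Nat.pair a b) ≤ a + b := by
      have h5 := Nat.pair_lt_max_add_one_sq a b
      have h6 : Nat.sqrt (Nat.pair a b) < max a b + 1 := by
        rw [Nat.sqrt_lt']
        exact h5
      omega
    have h5 : ((Nat.sqrt (Nat.pair a b) : ℕ) : ℝ) ≤ a + b := by exact_mod_cast h4
    push_cast
    exact one_div_le_one_div_of_le (by positivity) (by linarith)
  have h4 := (summable_nat_add_iff (f := fun n : ℕ => 1 / (n : ℝ)) (a + 1)).mp h3
  exact Real.not_summable_one_div_natCast h4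

end weights

section main

variable (m : ℕ → ℕ) (p : ℕ → ℕ →₀ 𝕜)

open Classical in
/-- the polynomials subtracted -/
noncomputable def q (m : ℕ → ℕ) (p : ℕ → ℕ →₀ 𝕜) : ℕ → ℕ →₀ 𝕜
  | 0 => 0
  | n + 1 => if h : ∃ j, m j = n + 1 then p h.choose else σ 𝕜 (q m p n)

variable (hm : StrictMono m) (hm0 : 0 < m 0) (hgap : ∀ i j, i < j → m j + i + 1 < m (j + 1))
  (hp : ∀ j k, m j ≤ k → p j k = 0)

include hp in
lemma q_zero_of_le (n k : ℕ) (h : n ≤ k) : q m p n k = 0 := by
  induction n generalizing k with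
  | zero => rfl
  | succ n ih =>
    obtain ⟨l, rfl⟩ : ∃ l, k = l + 1 := ⟨k - 1, by omega⟩
    rw [q]
    split_ifs with hj
    · exact hp _ _ (by rw [hj.choose_spec]; exact h)
    · rw [σ_succ]
      exact ih l (by omega)

include hm hm0 in
lemma q_m (j : ℕ) : q m p (m j) = p j := by
  have h1 : 0 < m j := lt_of_lt_of_le hm0 (hm.monotone (Nat.zero_le j))
  obtain ⟨n, hn⟩ : ∃ n, m j = n + 1 := ⟨m j - 1, by omega⟩
  have hex : ∃ j, m j = n + 1 := ⟨j, hn⟩
  rw [hn, q, dif_pos hex]
  congr 1
  exact hm.injective (by rw [hex.choose_spec, hn])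

lemma q_succ_of (n : ℕ) (h : ¬ ∃ j, m j = n + 1) : q m p (n + 1) = σ 𝕜 (q m p n) := by
  rw [q, dif_neg h]

include hm hm0 hgap hp in
theorem main_of (d : ℕ → ℕ →₀ 𝕜)
    (hd : ∀ (y : ℕ →₀ 𝕜) (w : ℕ → ℝ) (hw : ∀ n, 0 ≤ w n) (ε : ℝ), 0 < ε →
      ∃ a, pw 𝕜 w hw (d a - y) < ε)
    (hpd : ∀ a b, p (Nat.pair a b) = d a) : HypercyclicExists 𝕜 := by
  have hq := q_zero_of_le m p hp
  have hW := Wt_weights m hm hgap
  refine exists_of hW (T (q m p)) ?_ (Finsupp.single 0 1) ?_
  · intro w hw
    refine ⟨fun n => w (n + 1) + pw 𝕜 w (hW.nonneg w hw)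
      (Linv (q m p) (q m p (n + 1) - σ 𝕜 (q m p n))), ⟨fun n => ?_, fun i => ?_⟩, fun n => ?_⟩
    · exact add_nonneg (hw.1 _) (apply_nonneg _ _)
    · refine ((hw.2 (i + 1)).union (small_of_finite (Set.finite_le_nat (i + 1)))).mono ?_
      intro j hj
      by_contra hcon
      simp only [Set.mem_union, Set.mem_ofPred_eq, not_or, not_not, not_le] at hcon
      apply hj
      obtain ⟨h1, h2⟩ := hcon
      have h3 : ¬ ∃ k, m k = m j + i + 1 := by
        rintro ⟨k, hk⟩
        have h4 : j < k := hm.lt_iff_lt.mp (by omega)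
        have h5 : m (j + 1) ≤ m k := hm.monotone h4
        have h6 := hgap i j (by omega)
        omega
      simp only
      rw [q_succ_of m p _ h3, sub_self, map_zero, map_zero, add_zero]
      exact h1
    · rw [T_single _ hq]
      refine le_trans (map_add_le_add _ _ _) ?_
      refine add_le_add ?_ le_rfl
      rw [pw_apply, Finsupp.sum_single_index (by simp)]
      simp
  · intro y w hw ε hε
    set w' : ℕ → ℝ := fun n => pw 𝕜 w (hW.nonneg w hw) (Linv (q m p) (Finsupp.single n 1)) with hw'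
    have hw'0 : ∀ n, 0 ≤ w' n := fun n => apply_nonneg _ _
    obtain ⟨a, ha⟩ := hd (L (q m p) y) w' hw'0 ε hε
    obtain ⟨b, hb⟩ := exists_zero m w hw a
    refine ⟨m (Nat.pair a b), ?_⟩
    rw [T_pow_single _ hq, q_m m p hm hm0, hpd]
    have h1 : Finsupp.single (m (Nat.pair a b)) 1 + Linv (q m p) (d a) - y =
        Finsupp.single (m (Nat.pair a b)) 1 + Linv (q m p) (d a - L (q m p) y) := by
      rw [map_sub, Linv_L _ hq]
      abel
    rw [h1]
    refine lt_of_le_of_lt (map_add_le_add _ _ _) ?_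
    have h2 : pw 𝕜 w (hW.nonneg w hw) (Finsupp.single (m (Nat.pair a b)) 1) = 0 := by
      rw [pw_apply, Finsupp.sum_single_index (by simp), hb, zero_mul]
    rw [h2, zero_add]
    exact lt_of_le_of_lt (pw_map_le _ hw'0 (Linv (q m p)) (fun n => le_rfl) _) ha

end main

theorem main (𝕜 : Type) [RCLike 𝕜] : HypercyclicExists 𝕜 := by
  obtain ⟨d, hd⟩ := exists_dense_seq 𝕜
  set p : ℕ → ℕ →₀ 𝕜 := fun j => d (Nat.unpair j).1 with hp
  set len : ℕ → ℕ := fun j => (p j).support.sup id + 1 with hlen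
  set m : ℕ → ℕ := fun j => ∑ i ∈ Finset.range (j + 1), (len i + i + 1) with hm
  have hsucc : ∀ j, m (j + 1) = m j + (len (j + 1) + (j + 1) + 1) := by
    intro j
    simp only [hm]
    rw [Finset.sum_range_succ]
  have hmono : StrictMono m := strictMono_nat_of_lt_succ fun j => by rw [hsucc]; omega
  refine main_of m p hmono ?_ ?_ ?_ d hd ?_
  · simp [hm]
  · intro i j hij
    rw [hsucc]; omega
  · intro j k hk
    by_contra h
    have h1 : k ≤ (p j).support.sup id := Finset.le_sup (f := id) (Finsupp.mem_support_iff.mpr h)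
    have h2 : len j ≤ m j := by
      simp only [hm]
      rw [Finset.sum_range_succ]
      omega
    simp only [hlen] at h2
    omega
  · intro a b
    simp [hp]

end Q170.HC
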