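import Pool.Agent.Q170.HC.Space

/-!
From a set of weights and a dense orbit to a complete locally convex space with a hypercyclic
operator.
-/

namespace Q170.HC
open Filter Topology Uniformity

variable {𝕜 : Type} [RCLike 𝕜] {W : Set (ℕ → ℝ)}

/-- the conclusion -/
def HypercyclicExists (𝕜 : Type) [RCLike 𝕜] : Prop :=
  ∃ (X : Type) (_ : AddCommGroup X) (_ : Module 𝕜 X) (_ : Module ℝ X)
    (_ : IsScalarTower ℝ 𝕜 X) (_ : UniformSpace X) (_ : IsUniformAddGroup X)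
    (_ : ContinuousSMul 𝕜 X) (_ : T2Space X) (_ : LocallyConvexSpace ℝ X)
    (_ : CompleteSpace X),
    Module.rank 𝕜 X = Cardinal.aleph0 ∧
    ∃ (T : X →L[𝕜] X) (x : X), Dense (Set.range fun n : ℕ => (T ^ n) x)

theorem exists_of (hW : Weights W) (T : (ℕ →₀ 𝕜) →ₗ[𝕜] (ℕ →₀ 𝕜))
    (hT : ∀ w, ∀ hw : w ∈ W, ∃ w' ∈ W, ∀ n,
      pw 𝕜 w (hW.nonneg w hw) (T (Finsupp.single n 1)) ≤ w' n)
    (x₀ : ℕ →₀ 𝕜)
    (hd : ∀ y : ℕ →₀ 𝕜, ∀ w, ∀ hw : w ∈ W, ∀ ε > 0, ∃ N : ℕ,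
      pw 𝕜 w (hW.nonneg w hw) ((T ^ N) x₀ - y) < ε) : HypercyclicExists 𝕜 := by
  have : Nonempty W := ⟨⟨_, hW.single 0⟩⟩
  let τ : TopologicalSpace (ℕ →₀ 𝕜) := (fam 𝕜 hW).moduleFilterBasis.topology
  have hp : WithSeminorms (fam 𝕜 hW) := ⟨rfl⟩
  have : IsTopologicalAddGroup (ℕ →₀ 𝕜) := hp.topologicalAddGroup
  let u : UniformSpace (ℕ →₀ 𝕜) := IsTopologicalAddGroup.rightUniformSpace _
  have : IsUniformAddGroup (ℕ →₀ 𝕜) := isUniformAddGroup_of_addCommGroup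
  have : ContinuousSMul 𝕜 (ℕ →₀ 𝕜) := hp.continuousSMul
  have : T1Space (ℕ →₀ 𝕜) := t1 hW hp
  have : T2Space (ℕ →₀ 𝕜) := inferInstance
  have : LocallyConvexSpace ℝ (ℕ →₀ 𝕜) := hp.toLocallyConvexSpace
  have hcont : Continuous T := by
    refine WithSeminorms.continuous_of_isBounded hp hp T ?_
    intro w
    obtain ⟨w', hw', h⟩ := hT w.1 w.2
    refine ⟨{⟨w', hw'⟩}, 1, fun x => ?_⟩
    rw [Finset.sup_singleton, one_smul]
    exact pw_map_le _ (hW.nonneg w' hw') T h x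
  refine ⟨ℕ →₀ 𝕜, inferInstance, inferInstance, inferInstance, inferInstance, u,
    inferInstance, inferInstance, inferInstance, inferInstance, complete hW hp, ?_,
    ⟨T, hcont⟩, x₀, ?_⟩
  · simp
  · intro y
    rw [mem_closure_iff_nhds]
    intro U hU
    rw [mem_nhds_iff' hW hp] at hU
    obtain ⟨w, ε, hε, hU⟩ := hU
    obtain ⟨N, hN⟩ := hd y w.1 w.2 ε hε
    refine ⟨_, hU _ hN, ⟨N, ?_⟩⟩
    simp only
    have : ∀ (n : ℕ) (x : ℕ →₀ 𝕜), ((⟨T, hcont⟩ : (ℕ →₀ 𝕜) →L[𝕜] (ℕ →₀ 𝕜)) ^ n) x =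
        (T ^ n) x := by
      intro n
      induction n with
      | zero => intro x; simp
      | succ n ih => intro x; rw [pow_succ, pow_succ]; simp [ih]
    exact this N x₀

end Q170.HC
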