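import Mathlib

/-!
Weighted sequence space topologies on finitely supported sequences: completeness and hypercyclic
operators.
-/

set_option linter.unusedSectionVars false

namespace Q170.HC
open Filter Topology Uniformity

variable {𝕜 : Type} [RCLike 𝕜]

/-- the seminorm `∑ w n * ‖x n‖` -/
noncomputable def pw (𝕜 : Type) [RCLike 𝕜] (w : ℕ → ℝ) (hw : ∀ n, 0 ≤ w n) :
    Seminorm 𝕜 (ℕ →₀ 𝕜) :=
  Seminorm.of (fun x => x.sum fun n a => w n * ‖a‖)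
    (by
      intro x y
      classical
      have h0 : ∀ n ∈ x.support ∪ y.support, w n * ‖(0 : 𝕜)‖ = 0 := fun n _ => by simp
      rw [Finsupp.sum_of_support_subset (x + y) Finsupp.support_add _ h0,
        Finsupp.sum_of_support_subset x Finset.subset_union_left _ h0,
        Finsupp.sum_of_support_subset y Finset.subset_union_right _ h0,
        ← Finset.sum_add_distrib]
      refine Finset.sum_le_sum fun n _ => ?_
      rw [Finsupp.add_apply, ← mul_add]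
      exact mul_le_mul_of_nonneg_left (norm_add_le _ _) (hw n))
    (by
      intro a x
      classical
      have h0 : ∀ n ∈ x.support, w n * ‖(0 : 𝕜)‖ = 0 := fun n _ => by simp
      rw [Finsupp.sum_of_support_subset (a • x) Finsupp.support_smul _ h0, Finsupp.sum,
        Finset.mul_sum]
      refine Finset.sum_congr rfl fun n _ => ?_
      rw [Finsupp.smul_apply, smul_eq_mul, norm_mul]
      ring)

lemma pw_apply (w : ℕ → ℝ) (hw : ∀ n, 0 ≤ w n) (x : ℕ →₀ 𝕜) :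
    pw 𝕜 w hw x = x.sum fun n a => w n * ‖a‖ := rfl

lemma pw_eq_sum (w : ℕ → ℝ) (hw : ∀ n, 0 ≤ w n) (x : ℕ →₀ 𝕜) {F : Finset ℕ}
    (hF : x.support ⊆ F) : pw 𝕜 w hw x = ∑ n ∈ F, w n * ‖x n‖ := by
  rw [pw_apply]
  exact Finsupp.sum_of_support_subset x hF _ fun n _ => by simp

lemma sum_le_pw (w : ℕ → ℝ) (hw : ∀ n, 0 ≤ w n) (x : ℕ →₀ 𝕜) (F : Finset ℕ) :
    ∑ n ∈ F, w n * ‖x n‖ ≤ pw 𝕜 w hw x := by
  classical
  rw [pw_eq_sum w hw x (F := F ∪ x.support) Finset.subset_union_right]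
  exact Finset.sum_le_sum_of_subset_of_nonneg Finset.subset_union_left
    fun n _ _ => mul_nonneg (hw n) (norm_nonneg _)

lemma pw_le_of (w : ℕ → ℝ) (hw : ∀ n, 0 ≤ w n) (x : ℕ →₀ 𝕜) {C : ℝ}
    (h : ∀ F : Finset ℕ, ∑ n ∈ F, w n * ‖x n‖ ≤ C) : pw 𝕜 w hw x ≤ C := by
  rw [pw_eq_sum w hw x (F := x.support) subset_rfl]
  exact h _

lemma pw_mono {w w' : ℕ → ℝ} (hw : ∀ n, 0 ≤ w n) (hw' : ∀ n, 0 ≤ w' n) (h : ∀ n, w n ≤ w' n)
    (x : ℕ →₀ 𝕜) : pw 𝕜 w hw x ≤ pw 𝕜 w' hw' x := by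
  rw [pw_eq_sum w hw x (F := x.support) subset_rfl, pw_eq_sum w' hw' x (F := x.support) subset_rfl]
  exact Finset.sum_le_sum fun n _ => mul_le_mul_of_nonneg_right (h n) (norm_nonneg _)

lemma seminorm_sum_le {E ι : Type} [AddCommGroup E] [Module 𝕜 E] (p : Seminorm 𝕜 E)
    (s : Finset ι) (f : ι → E) : p (∑ i ∈ s, f i) ≤ ∑ i ∈ s, p (f i) := by
  classical
  induction s using Finset.induction_on with
  | empty => simp
  | insert a s ha ih =>
    rw [Finset.sum_insert ha, Finset.sum_insert ha]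
    exact le_trans (map_add_le_add p _ _) (by linarith)

/-- a linear map is controlled by its values on the unit vectors -/
lemma pw_map_le {w w' : ℕ → ℝ} (hw : ∀ n, 0 ≤ w n) (hw' : ∀ n, 0 ≤ w' n)
    (T : (ℕ →₀ 𝕜) →ₗ[𝕜] (ℕ →₀ 𝕜)) (h : ∀ n, pw 𝕜 w hw (T (Finsupp.single n 1)) ≤ w' n)
    (x : ℕ →₀ 𝕜) : pw 𝕜 w hw (T x) ≤ pw 𝕜 w' hw' x := by
  have h1 : T x = ∑ n ∈ x.support, x n • T (Finsupp.single n 1) := by
    conv_lhs => rw [← Finsupp.sum_single x]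
    rw [Finsupp.sum, map_sum]
    refine Finset.sum_congr rfl fun n _ => ?_
    rw [← map_smul, Finsupp.smul_single, smul_eq_mul, mul_one]
  rw [h1, pw_eq_sum w' hw' x (F := x.support) subset_rfl]
  refine le_trans (seminorm_sum_le (pw 𝕜 w hw) _ _) ?_
  refine Finset.sum_le_sum fun n _ => ?_
  rw [map_smul_eq_mul, mul_comm]
  exact mul_le_mul_of_nonneg_right (h n) (norm_nonneg _)

/-- the properties of the set of weights -/
structure Weights (W : Set (ℕ → ℝ)) : Prop where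
  nonneg : ∀ w ∈ W, ∀ n, 0 ≤ w n
  add : ∀ w ∈ W, ∀ w' ∈ W, w + w' ∈ W
  single : ∀ n, Pi.single n 1 ∈ W
  tall : ∀ (S : Set ℕ) (f : ℕ → ℝ), S.Infinite → (∀ n ∈ S, 0 < f n) →
    ∃ w ∈ W, {n | n ∈ S ∧ 1 ≤ w n * f n}.Infinite

variable {W : Set (ℕ → ℝ)}

/-- the family of seminorms -/
noncomputable def fam (𝕜 : Type) [RCLike 𝕜] (hW : Weights W) : SeminormFamily 𝕜 (ℕ →₀ 𝕜) W :=
  fun w => pw 𝕜 w.1 (hW.nonneg w.1 w.2)

lemma exists_dom (hW : Weights W) (s : Finset W) :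
    ∃ w : W, ∀ x, (s.sup (fam 𝕜 hW)) x ≤ fam 𝕜 hW w x := by
  classical
  induction s using Finset.induction_on with
  | empty =>
    refine ⟨⟨_, hW.single 0⟩, fun x => ?_⟩
    rw [Finset.sup_empty]
    exact apply_nonneg _ _
  | insert a s _ ih =>
    obtain ⟨w, hw⟩ := ih
    refine ⟨⟨a.1 + w.1, hW.add _ a.2 _ w.2⟩, fun x => ?_⟩
    rw [Finset.sup_insert, Seminorm.sup_apply]
    refine max_le ?_ (le_trans (hw x) ?_)
    · exact pw_mono _ _ (fun n => by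
        have := hW.nonneg w.1 w.2 n
        simp only [Pi.add_apply]; linarith) x
    · exact pw_mono _ _ (fun n => by
        have := hW.nonneg a.1 a.2 n
        simp only [Pi.add_apply]; linarith) x

section top

variable (hW : Weights W) [TopologicalSpace (ℕ →₀ 𝕜)] (hp : WithSeminorms (fam 𝕜 hW))

include hp

lemma mem_nhds_iff' (y : ℕ →₀ 𝕜) (U : Set (ℕ →₀ 𝕜)) :
    U ∈ 𝓝 y ↔ ∃ w : W, ∃ ε > 0, ∀ x, fam 𝕜 hW w (x - y) < ε → x ∈ U := by
  rw [hp.mem_nhds_iff]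
  constructor
  · rintro ⟨s, ε, hε, h⟩
    obtain ⟨w, hw⟩ := exists_dom (𝕜 := 𝕜) hW s
    refine ⟨w, ε, hε, fun x hx => h ?_⟩
    rw [Seminorm.mem_ball]
    exact lt_of_le_of_lt (hw _) hx
  · rintro ⟨w, ε, hε, h⟩
    refine ⟨{w}, ε, hε, fun x hx => h x ?_⟩
    rw [Seminorm.mem_ball, Finset.sup_singleton] at hx
    exact hx

lemma t1 : T1Space (ℕ →₀ 𝕜) := by
  apply hp.T1_of_separating
  intro x hx
  obtain ⟨n, hn⟩ := Finsupp.ne_iff.mp hx
  refine ⟨⟨_, hW.single n⟩, ?_⟩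
  have h1 : ‖x n‖ ≤ fam 𝕜 hW ⟨_, hW.single n⟩ x := by
    have h := sum_le_pw (Pi.single n 1) (hW.nonneg _ (hW.single n)) x {n}
    rw [Finset.sum_singleton, Pi.single_eq_same, one_mul] at h
    exact h
  have h2 : 0 < ‖x n‖ := norm_pos_iff.mpr (by simpa using hn)
  exact (lt_of_lt_of_le h2 h1).ne'

end top

/-- completeness -/
lemma complete (hW : Weights W) [u : UniformSpace (ℕ →₀ 𝕜)] [IsUniformAddGroup (ℕ →₀ 𝕜)]
    (hp : WithSeminorms (fam 𝕜 hW)) : CompleteSpace (ℕ →₀ 𝕜) := by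
  refine ⟨fun {f} hf => ?_⟩
  obtain ⟨hne, hc⟩ := cauchy_iff.mp hf
  have key : ∀ (w : W) (ε : ℝ), 0 < ε → ∃ A ∈ f, ∀ x ∈ A, ∀ y ∈ A, fam 𝕜 hW w (x - y) < ε := by
    intro w ε hε
    have h1 : {z : ℕ →₀ 𝕜 | fam 𝕜 hW w z < ε} ∈ 𝓝 (0 : ℕ →₀ 𝕜) := by
      rw [mem_nhds_iff' hW hp]
      exact ⟨w, ε, hε, fun x hx => by simpa using hx⟩
    have h2 : {q : (ℕ →₀ 𝕜) × (ℕ →₀ 𝕜) | fam 𝕜 hW w (q.2 - q.1) < ε} ∈ 𝓤 (ℕ →₀ 𝕜) := by
      rw [uniformity_eq_comap_nhds_zero]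
      exact ⟨_, h1, fun q hq => hq⟩
    obtain ⟨A, hA, hAA⟩ := hc _ h2
    refine ⟨A, hA, fun x hx y hy => ?_⟩
    exact hAA (Set.mk_mem_prod hy hx)
  -- coordinates converge
  have hcoord : ∀ n, ∃ a : 𝕜, Tendsto (fun x : ℕ →₀ 𝕜 => x n) f (𝓝 a) := by
    intro n
    have : Cauchy (map (fun x : ℕ →₀ 𝕜 => x n) f) := by
      rw [Metric.cauchy_iff]
      refine ⟨hne.map _, fun ε hε => ?_⟩
      obtain ⟨A, hA, hAA⟩ := key ⟨_, hW.single n⟩ ε hε
      refine ⟨_, image_mem_map hA, ?_⟩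
      rintro _ ⟨x, hx, rfl⟩ _ ⟨y, hy, rfl⟩
      rw [dist_eq_norm]
      have h1 := sum_le_pw (Pi.single n 1) (hW.nonneg _ (hW.single n)) (x - y) {n}
      refine lt_of_le_of_lt ?_ (hAA x hx y hy)
      rw [Finset.sum_singleton, Pi.single_eq_same, one_mul, Finsupp.sub_apply] at h1
      exact h1
    exact cauchy_map_iff_exists_tendsto.mp this
  choose a ha using hcoord
  -- finite support
  have hfin : (Function.support a).Finite := by
    by_contra hinf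
    obtain ⟨w, hw, hS⟩ := hW.tall (Function.support a) (fun n => ‖a n‖) hinf
      (fun n hn => norm_pos_iff.mpr hn)
    obtain ⟨A, hA, hAA⟩ := key ⟨w, hw⟩ 1 one_pos
    obtain ⟨y0, hy0⟩ := hne.nonempty_of_mem hA
    set C := fam 𝕜 hW ⟨w, hw⟩ y0 + 1 with hC
    have hbound : ∀ y ∈ A, fam 𝕜 hW ⟨w, hw⟩ y ≤ C := by
      intro y hy
      have h1 := hAA y hy y0 hy0
      have h2 := map_add_le_add (fam 𝕜 hW ⟨w, hw⟩) (y - y0) y0
      rw [sub_add_cancel] at h2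
      linarith
    obtain ⟨N, hN⟩ := exists_nat_gt C
    obtain ⟨F, hFS, hFN⟩ := hS.exists_subset_card_eq N
    have h1 : ∑ n ∈ F, w n * ‖a n‖ ≤ C := by
      have ht : Tendsto (fun y : ℕ →₀ 𝕜 => ∑ n ∈ F, w n * ‖y n‖) f
          (𝓝 (∑ n ∈ F, w n * ‖a n‖)) :=
        tendsto_finsetSum _ fun n _ => ((ha n).norm).const_mul (w n)
      refine le_of_tendsto ht ?_
      filter_upwards [hA] with y hy
      exact le_trans (sum_le_pw w (hW.nonneg w hw) y F) (hbound y hy)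
    have h2 : (N : ℝ) ≤ ∑ n ∈ F, w n * ‖a n‖ := by
      rw [← hFN, ← nsmul_one, ← Finset.sum_const]
      exact Finset.sum_le_sum fun n hn => (hFS hn).2
    linarith
  set x : ℕ →₀ 𝕜 := Finsupp.ofSupportFinite a hfin with hx
  have hxa : ∀ n, x n = a n := fun n => rfl
  refine ⟨x, ?_⟩
  intro U hU
  rw [mem_nhds_iff' hW hp] at hU
  obtain ⟨w, ε, hε, hU⟩ := hU
  obtain ⟨A, hA, hAA⟩ := key w (ε / 2) (by positivity)
  filter_upwards [hA] with y hy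
  apply hU
  refine lt_of_le_of_lt (pw_le_of w.1 _ _ (C := ε / 2) fun F => ?_) (by linarith)
  have ht : Tendsto (fun z : ℕ →₀ 𝕜 => ∑ n ∈ F, w.1 n * ‖y n - z n‖) f
      (𝓝 (∑ n ∈ F, w.1 n * ‖y n - a n‖)) :=
    tendsto_finsetSum _ fun n _ => ((tendsto_const_nhds.sub (ha n)).norm).const_mul (w.1 n)
  refine le_of_tendsto ht ?_
  filter_upwards [hA] with z hz
  refine le_trans ?_ (hAA y hy z hz).le
  exact sum_le_pw w.1 (hW.nonneg w.1 w.2) (y - z) F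

end Q170.HC
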